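import Pool.Agent.H56.G3.TI

/-!
# Theorem (G), row IC: the coefficients of a sum of exponentials
-/

set_option autoImplicit false

namespace Pool.Agent.H86.G3

open Finset Pool.Agent.H6.N4D Pool.Agent.H93.EB Pool.Agent.H93.GS Pool.Agent.H56.G3

theorem ic_expand (g : Ex) (N n : ℕ) (β : ℝ) : cf N n g.f β =
    ∑ i ∈ range g.k, g.c i * ((∑ m ∈ Ioc n (n + N), ee ((g.a i - β) * m)) / N) := by
  unfold cf Ex.f
  simp only [sum_mul, ← mul_div_assoc, mul_sum]
  rw [sum_comm, sum_div]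
  refine sum_congr rfl fun i _ => ?_
  congr 1
  refine sum_congr rfl fun m _ => ?_
  rw [mul_assoc, ← ee_add]
  congr 2
  ring

theorem ic_mean (hRG : T_RG) {N n : ℕ} {Lam x : ℝ} (hN : 1 ≤ N) (hL : 0 < Lam)
    (h : Lam / N ≤ nd x) : ‖(∑ m ∈ Ioc n (n + N), ee (x * m)) / (N : ℂ)‖ ≤ 1 / Lam := by
  have hN0 : (0 : ℝ) < N := by exact_mod_cast hN
  have hx : 0 < nd x := lt_of_lt_of_le (by positivity) h
  have h1 := hRG x N n hx
  rw [norm_div, Complex.norm_natCast, div_le_iff₀ hN0]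
  refine h1.trans ?_
  rw [div_le_iff₀ (by positivity)]
  have h2 : Lam ≤ nd x * N := (div_le_iff₀ hN0).1 h
  have h3 : 1 / Lam * N * (2 * nd x) = 2 * ((nd x * N) / Lam) := by
    field_simp
  rw [h3]
  have h4 : 1 ≤ nd x * N / Lam := by
    rw [le_div_iff₀ hL]
    linarith
  linarith

theorem pf_IC (hRG : T_RG) : T_IC := by
  intro g N n Lam β hN hL
  have hN0 : (0 : ℝ) < N := by exact_mod_cast hN
  constructor
  · intro h
    rw [ic_expand]
    refine (norm_sum_le _ _).trans ?_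
    unfold Ex.nm
    rw [sum_div]
    refine sum_le_sum fun i hi => ?_
    rw [norm_mul, div_eq_mul_one_div ‖_‖ Lam]
    exact mul_le_mul_of_nonneg_left (ic_mean hRG hN hL (h i (mem_range.1 hi))) (norm_nonneg _)
  · intro i hi h
    have h1 : cf N n g.f (g.a i) - g.c i = ∑ j ∈ (range g.k).erase i,
        g.c j * ((∑ m ∈ Ioc n (n + N), ee ((g.a j - g.a i) * m)) / N) := by
      rw [ic_expand, ← add_sum_erase (range g.k) _ (mem_range.2 hi)]
      have h2 : (∑ m ∈ Ioc n (n + N), ee ((g.a i - g.a i) * m)) / (N : ℂ) = 1 := by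
        have h3 : ∀ m ∈ Ioc n (n + N), ee ((g.a i - g.a i) * m) = 1 := by
          intro m _
          simp [ee]
        rw [sum_congr rfl h3, sum_const, Nat.card_Ioc, nsmul_eq_mul, mul_one]
        have : (N : ℂ) ≠ 0 := by exact_mod_cast hN0.ne'
        rw [Nat.add_sub_cancel_left, div_self this]
      rw [h2, mul_one, add_sub_cancel_left]
    rw [h1]
    refine (norm_sum_le _ _).trans ?_
    unfold Ex.nm
    rw [sum_div]
    refine (sum_le_sum (g := fun j => ‖g.c j‖ / Lam) fun j hj => ?_).trans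
      (sum_le_sum_of_subset_of_nonneg (erase_subset _ _) fun j _ _ => by positivity)
    rw [mem_erase, mem_range] at hj
    rw [norm_mul, div_eq_mul_one_div ‖_‖ Lam]
    exact mul_le_mul_of_nonneg_left (ic_mean hRG hN hL (h j hj.2 hj.1)) (norm_nonneg _)

end Pool.Agent.H86.G3
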