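import Pool.Agent.H56.G3.TS

/-!
# Theorem (G), row SF: sliding windows of fixed length
-/

set_option autoImplicit false

namespace Pool.Agent.H86.G3

open Finset Pool.Agent.H56.G3

/-- summation by parts -/
theorem sf_parts (G : ℕ → ℝ) (hG : ∀ n, |G n| ≤ 1) (A B : ℕ) (hA : 1 ≤ A) (hAB : A ≤ B) :
    |∑ n ∈ Ico A B, (G (n + 1) - G n) / n - G B / B + G A / A| ≤ 1 / A - 1 / B := by
  induction B, hAB using Nat.le_induction with
  | base => simp
  | succ B hAB ih =>
    rw [sum_Ico_succ_top hAB]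
    have hB : (0 : ℝ) < B := by exact_mod_cast (by omega : 0 < B)
    have h1 : (0 : ℝ) ≤ 1 / (B : ℝ) - 1 / ((B : ℝ) + 1) := by
      have : 1 / ((B : ℝ) + 1) ≤ 1 / (B : ℝ) := one_div_le_one_div_of_le hB (by linarith)
      linarith
    have h2 : |G (B + 1) * (1 / (B : ℝ) - 1 / ((B : ℝ) + 1))| ≤
        1 / (B : ℝ) - 1 / ((B : ℝ) + 1) := by
      rw [abs_mul, abs_of_nonneg h1]
      exact mul_le_of_le_one_left h1 (hG _)
    have h3 : ∑ n ∈ Ico A B, (G (n + 1) - G n) / n + (G (B + 1) - G B) / B -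
        G (B + 1) / ((B + 1 : ℕ) : ℝ) + G A / A =
        (∑ n ∈ Ico A B, (G (n + 1) - G n) / n - G B / B + G A / A) +
          G (B + 1) * (1 / (B : ℝ) - 1 / ((B : ℝ) + 1)) := by
      push_cast
      ring
    rw [h3]
    refine (abs_add_le _ _).trans ?_
    push_cast
    linarith

theorem sf_step (G : ℕ → ℝ) (hG : ∀ n, |G n| ≤ 1) (A B : ℕ) (hA : 1 ≤ A) (hAB : A ≤ B) :
    |∑ n ∈ Ico A B, (G (n + 1) - G n) / n| ≤ 2 / A := by
  have h1 := sf_parts G hG A B hA hAB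
  have hA0 : (0 : ℝ) < A := by exact_mod_cast hA
  have hB0 : (0 : ℝ) < B := by exact_mod_cast (by omega : 0 < B)
  have h2 : |G B / B| ≤ 1 / B := by
    rw [abs_div, abs_of_pos hB0]
    exact div_le_div_of_nonneg_right (hG B) hB0.le
  have h3 : |G A / A| ≤ 1 / A := by
    rw [abs_div, abs_of_pos hA0]
    exact div_le_div_of_nonneg_right (hG A) hA0.le
  have h4 : (2 : ℝ) / A = 1 / A + 1 / A := by ring
  rw [h4]
  rw [abs_le] at h1 h2 h3 ⊢
  constructor <;> linarith [h1.1, h1.2, h2.1, h2.2, h3.1, h3.2]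

theorem sf_shift (F : ℕ → ℝ) (hF : ∀ n, |F n| ≤ 1) (A B : ℕ) (hA : 1 ≤ A) (hAB : A ≤ B) (j : ℕ) :
    |∑ n ∈ Ico A B, F (n + j) / n - ∑ n ∈ Ico A B, F n / n| ≤ 2 * j / A := by
  induction j with
  | zero => simp
  | succ j ih =>
    have h1 := sf_step (fun n => F (n + j)) (fun n => hF _) A B hA hAB
    have h2 : ∑ n ∈ Ico A B, F (n + (j + 1)) / (n : ℝ) - ∑ n ∈ Ico A B, F n / (n : ℝ) =
        ∑ n ∈ Ico A B, (F (n + 1 + j) - F (n + j)) / (n : ℝ) +
          (∑ n ∈ Ico A B, F (n + j) / (n : ℝ) - ∑ n ∈ Ico A B, F n / (n : ℝ)) := by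
      rw [← add_sub_assoc, ← sum_add_distrib]
      congr 1
      refine sum_congr rfl fun n _ => ?_
      rw [← add_div, show n + (j + 1) = n + 1 + j by ring]
      ring
    rw [h2]
    refine (abs_add_le _ _).trans ?_
    have h3 : 2 * ((j + 1 : ℕ) : ℝ) / A = 2 / A + 2 * j / A := by
      push_cast
      ring
    rw [h3]
    exact add_le_add h1 ih

theorem pf_SF : T_SF := by
  intro F H A B hF hH hHA hAB
  have hA : 1 ≤ A := hH.trans hHA
  have hA0 : (0 : ℝ) < A := by exact_mod_cast hA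
  have hH0 : (0 : ℝ) < H := by exact_mod_cast hH
  have h1 : ∑ n ∈ Ico A B, sl H n F / n - ∑ n ∈ Ico A B, F n / n =
      (∑ j ∈ range H, (∑ n ∈ Ico A B, F (n + j) / n - ∑ n ∈ Ico A B, F n / n)) / H := by
    rw [sum_sub_distrib, sum_const, card_range, nsmul_eq_mul, sub_div, mul_div_cancel_left₀ _ hH0.ne']
    congr 1
    unfold sl
    rw [sum_comm, sum_div]
    refine sum_congr rfl fun n _ => ?_
    rw [← sum_div]
    ring
  rw [h1, abs_div, abs_of_pos hH0, div_le_iff₀ hH0]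
  refine (abs_sum_le_sum_abs _ _).trans ?_
  calc ∑ j ∈ range H, |∑ n ∈ Ico A B, F (n + j) / n - ∑ n ∈ Ico A B, F n / n| ≤
      ∑ j ∈ range H, 4 * (H : ℝ) / A := by
        refine sum_le_sum fun j hj => (sf_shift F hF A B hA hAB j).trans ?_
        have h2 : (j : ℝ) ≤ H := by exact_mod_cast (mem_range.1 hj).le
        refine div_le_div_of_nonneg_right ?_ hA0.le
        linarith
    _ = 4 * H / A * H := by
        rw [sum_const, card_range, nsmul_eq_mul]
        ring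

end Pool.Agent.H86.G3
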